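import Mathlib
import Pool.Agent.H98.Code.Minor

set_option autoImplicit false

/-!
Leaves of codes (MP_a46c6f_co): a leaf `l` at `p` is a word with a letter at `l`, `z` at `p` and `0`
elsewhere. The minor at `l` with the third letter `c l + z` inherits everything.
-/

namespace Pool.Agent.H80.TB

open Pool.Agent.H98.Code

/-- `l` is a leaf at `p` -/
def LeafAt {V : Type} (L : Submodule (ZMod 2) (V → K)) (l p : V) : Prop :=
  l ≠ p ∧ ∃ c ∈ L, (c l).1 = 1 ∧ c p = z ∧ ∀ v, v ≠ l → v ≠ p → c v = 0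

/-- two different leaves -/
def TwoLeaves {V : Type} (L : Submodule (ZMod 2) (V → K)) : Prop :=
  ∃ l l' p p' : V, l ≠ l' ∧ LeafAt L l p ∧ LeafAt L l' p'

/-- `l` is a leaf at `p` up to the letter `z` at the root `e` -/
def RLeaf {V : Type} (L : Submodule (ZMod 2) (V → K)) (e l p : V) (c : V → K) : Prop :=
  l ≠ p ∧ l ≠ e ∧ p ≠ e ∧ c ∈ L ∧ (c l).1 = 1 ∧ c p = z ∧ (c e).1 = 0 ∧
    ∀ v, v ≠ l → v ≠ p → v ≠ e → c v = 0

/-- the root `e` has exactly one neighbour -/
def RootLeaf {V : Type} (L : Submodule (ZMod 2) (V → K)) (e : V) : Prop :=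
  ∃ a : V, a ≠ e ∧ ∃ r ∈ L, (r e).1 = 1 ∧ r a = z ∧ ∀ v, v ≠ e → v ≠ a → r v = 0

lemma k_one (a : K) (h : a.1 = 1) : a ≠ 0 ∧ a ≠ z ∧ a + z ≠ 0 ∧ a + z ≠ z := by
  revert a; decide

lemma k_third (a : K) (h : a.1 = 1) : kf (a + z) a = 1 := by
  revert a; decide

lemma k_z (a : K) (h : a.1 = 0) : a = 0 ∨ a = z := by
  revert a; decide

lemma k_zz (a b : K) (h : a.1 = 0) (h' : b.1 = 0) : kf a b = 0 := by
  revert a b; decide

lemma k_fst (a : K) (h : a ≠ 0) (h' : a ≠ z) : a.1 = 1 := by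
  revert a; decide

section one
variable {V W : Type}

lemma mem_minor_one {L : Submodule (ZMod 2) (V → K)} {ι : W → V} {l : V}
    (hr : ∀ v, v ≠ l ↔ ∃ w, ι w = v) {s : K} {a : W → K} :
    a ∈ Minor L ι (fun _ => s) ↔ ∃ u ∈ L, kf (u l) s = 0 ∧ ∀ w, a w = u (ι w) := by
  constructor
  · rintro ⟨u, hu, h1, rfl⟩
    refine ⟨u, hu, h1 l ?_, fun w => rfl⟩
    rintro ⟨w, hw⟩
    exact (hr l).2 ⟨w, hw⟩ rfl
  · rintro ⟨u, hu, h1, h2⟩
    refine ⟨u, hu, ?_, funext h2⟩
    intro v hv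
    have : v = l := by
      by_contra hne
      exact hv ((hr v).1 hne)
    rw [this]; exact h1

lemma isCode_one [Fintype V] [Fintype W] {L : Submodule (ZMod 2) (V → K)} (hL : IsCode L) {ι : W → V}
    (hι : Function.Injective ι) {s : K} (hs : s ≠ 0) : IsCode (Minor L ι (fun _ => s)) :=
  minor_isCode hL hι fun _ _ => hs

end one

section three
variable {V : Type} [Fintype V]

lemma form_three {u c : V → K} {l p e : V} (hlp : l ≠ p) (hle : l ≠ e) (hpe : p ≠ e)
    (h : ∀ v, v ≠ l → v ≠ p → v ≠ e → c v = 0) :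
    form u c = kf (u l) (c l) + kf (u p) (c p) + kf (u e) (c e) := by
  classical
  unfold form
  rw [← Finset.sum_subset (Finset.subset_univ ({l, p, e} : Finset V))]
  · rw [Finset.sum_insert, Finset.sum_insert, Finset.sum_singleton, add_assoc]
    · simp [hpe]
    · simp [hlp, hle]
  · intro v _ hv
    simp only [Finset.mem_insert, Finset.mem_singleton, not_or] at hv
    rw [h v hv.1 hv.2.1 hv.2.2, kf_zero_right]

lemma form_two {u c : V → K} {l p : V} (hlp : l ≠ p)
    (h : ∀ v, v ≠ l → v ≠ p → c v = 0) :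
    form u c = kf (u l) (c l) + kf (u p) (c p) := by
  classical
  unfold form
  rw [← Finset.sum_subset (Finset.subset_univ ({l, p} : Finset V))]
  · rw [Finset.sum_insert, Finset.sum_singleton]
    simp [hlp]
  · intro v _ hv
    simp only [Finset.mem_insert, Finset.mem_singleton, not_or] at hv
    rw [h v hv.1 hv.2, kf_zero_right]

end three

section leafminor
variable {V W : Type} [Fintype V] [Fintype W]

/-- the minor at a rooted leaf has no `{0, z}`-word -/
lemma noZ_rleaf {L : Submodule (ZMod 2) (V → K)} (hL : IsCode L) (hz : NoZ L) {e l p : V}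
    {c : V → K} (hc : RLeaf L e l p c) {ι : W → V} (hr : ∀ v, v ≠ l ↔ ∃ w, ι w = v) :
    NoZ (Minor L ι (fun _ => c l + z)) := by
  obtain ⟨hlp, hle, hpe, hcL, hcl, hcp, hce, hc0⟩ := hc
  intro a ha hza
  obtain ⟨u, hu, h1, h2⟩ := (mem_minor_one hr).1 ha
  have hs := (k_one _ hcl)
  have hup : (u p).1 = 0 := by
    obtain ⟨w, hw⟩ := (hr p).1 (Ne.symm hlp)
    rw [← hw, ← h2]; exact hza w
  have hue : (u e).1 = 0 := by
    obtain ⟨w, hw⟩ := (hr e).1 (Ne.symm hle)
    rw [← hw, ← h2]; exact hza w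
  have h3 := hL.iso u hu c hcL
  rw [form_three hlp hle hpe hc0, hcp, k_z_r (u p) hup, k_zz _ _ hue hce, add_zero, add_zero] at h3
  have hul : u l = 0 := by
    rcases (kf_eq_zero_iff _ _ hs.2.2.1).1 h1 with h | h
    · exact h
    · rw [h, k_third _ hcl] at h3
      exact absurd h3 (by decide)
  have hu0 : u = 0 := by
    apply hz u hu
    intro v
    by_cases hv : v = l
    · rw [hv, hul]; rfl
    · obtain ⟨w, hw⟩ := (hr v).1 hv
      rw [← hw, ← h2]; exact hza w
  funext w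
  rw [h2 w, hu0]; rfl
where
  k_z_r : ∀ a : K, a.1 = 0 → kf a z = 0 := by decide

/-- splitting of words which vanish at the root passes to the minor at a rooted leaf -/
lemma critAt_rleaf {L : Submodule (ZMod 2) (V → K)} (hL : IsCode L) {e l p : V}
    (hC : CritAt L e) {c : V → K} (hc : RLeaf L e l p c) {ι : W → V}
    (hinj : Function.Injective ι)
    (hr : ∀ v, v ≠ l ↔ ∃ w, ι w = v) {e' : W} (he' : ι e' = e) :
    CritAt (Minor L ι (fun _ => c l + z)) e' := by
  obtain ⟨hlp, hle, hpe, hcL, hcl, hcp, hce, hc0⟩ := hc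
  have hs := (k_one _ hcl)
  intro u' hu' hne hzf hu'e
  obtain ⟨w, hw, h1, h2⟩ := (mem_minor_one hr).1 hu'
  have hwl := (kf_eq_zero_iff _ _ hs.2.2.1).1 h1
  have hwne : w ≠ 0 := by
    rintro rfl
    exact hne (funext fun x => h2 x)
  have hwzf : ZFree w := by
    intro v
    by_cases hv : v = l
    · rw [hv]
      rcases hwl with h | h
      · rw [h]; decide
      · rw [h]; exact hs.2.2.2
    · obtain ⟨x, hx⟩ := (hr v).1 hv
      rw [← hx, ← h2]; exact hzf x
  have hwe : w e = 0 := by rw [← he', ← h2]; exact hu'e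
  obtain ⟨g, c1, hc1, c2, hc2, hsum, hg1, hg2, hdis⟩ := hC w hw hwne hwzf hwe
  have hval : ∀ v, c1 v + c2 v = w v := fun v => congrFun hsum v
  have hgl : g ≠ l := by
    intro hgl
    have he0 : c1 e = 0 ∧ c2 e = 0 := by
      have h3 := hval e
      rw [hwe] at h3
      rcases hdis e (by rw [hgl]; exact Ne.symm hle) with h | h
      · rw [h, zero_add] at h3; exact ⟨h, h3⟩
      · rw [h, add_zero] at h3; exact ⟨h3, h⟩
    have key : ∀ d ∈ L, d g = z → d e = 0 → d p ≠ 0 := by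
      intro d hd hdg hde hdp
      have h3 := hL.iso d hd c hcL
      rw [form_three hlp hle hpe hc0, hcp, hdp, hde, kf_zero_left, kf_zero_left, ← hgl, hdg,
        add_zero, add_zero, kf_z_left, hgl, hcl] at h3
      exact absurd h3 (by decide)
    rcases hdis p (by rw [hgl]; exact Ne.symm hlp) with h | h
    · exact key c1 hc1 hg1 he0.1 h
    · exact key c2 hc2 hg2 he0.2 h
  obtain ⟨g', hg'⟩ := (hr g).1 hgl
  have hl12 : kf (c1 l) (c l + z) = 0 ∧ kf (c2 l) (c l + z) = 0 := by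
    have h3 := hval l
    rcases hdis l (Ne.symm hgl) with h | h
    · rw [h, zero_add] at h3
      rw [h, h3]; exact ⟨kf_zero_left _, h1⟩
    · rw [h, add_zero] at h3
      rw [h, h3]; exact ⟨h1, kf_zero_left _⟩
  refine ⟨g', fun x => c1 (ι x), (mem_minor_one hr).2 ⟨c1, hc1, hl12.1, fun _ => rfl⟩,
    fun x => c2 (ι x), (mem_minor_one hr).2 ⟨c2, hc2, hl12.2, fun _ => rfl⟩, ?_, ?_, ?_, ?_⟩
  · funext x
    rw [h2 x]; exact hval (ι x)
  · change c1 (ι g') = z
    rw [hg']; exact hg1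
  · change c2 (ι g') = z
    rw [hg']; exact hg2
  · intro x hx
    exact hdis (ι x) fun hxg => hx (hinj (hxg.trans hg'.symm))

end leafminor

end Pool.Agent.H80.TB
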