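import Mathlib
import Pool.Agent.H80.TB.Leaf

set_option autoImplicit false

/-!
LEMMA B (MP_a46c6f_co): a code with root `e` whose minor at `e` (letter `z`) is a tree (every such
code has two leaves, and stays in the class after deleting a leaf) and in which every nonzero
`z`-free word vanishing at `e` splits: then `e` has exactly one neighbour. Induction on leaves.
-/

namespace Pool.Agent.H80.TB

open Pool.Agent.H98.Code

section
variable {V W : Type} [Fintype V] [Fintype W]

/-- a leaf of the minor at a leaf `l` (at `p`), different from `p`, is a leaf -/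
lemma leaf_of_minor {L : Submodule (ZMod 2) (V → K)} (hL : IsCode L) {l p : V} (hlp : l ≠ p)
    {c : V → K} (hc : c ∈ L) (hcl : (c l).1 = 1) (hcp : c p = z)
    (hc0 : ∀ v, v ≠ l → v ≠ p → c v = 0) {ι : W → V} (hr : ∀ v, v ≠ l ↔ ∃ w, ι w = v)
    (hinj : Function.Injective ι)
    {l' p' : W} (h : LeafAt (Minor L ι (fun _ => c l + z)) l' p') (hne : ι l' ≠ p) :
    LeafAt L (ι l') (ι p') := by
  obtain ⟨hlp', d', hd', h1, h2, h3⟩ := h
  obtain ⟨d, hd, k1, k2⟩ := (mem_minor_one hr).1 hd'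
  have hs := k_one _ hcl
  obtain ⟨w, hw⟩ := (hr p).1 (Ne.symm hlp)
  have hdp : (d p).1 = 0 := by
    rw [← hw, ← k2]
    by_cases hwp : w = p'
    · rw [hwp, h2]; rfl
    · rw [h3 w (by rintro rfl; exact hne hw) hwp]; rfl
  have h4 := hL.iso d hd c hc
  rw [form_two hlp hc0, hcp, kf_z_right, hdp, add_zero] at h4
  have hdl : d l = 0 := by
    rcases (kf_eq_zero_iff _ _ hs.2.2.1).1 k1 with h | h
    · exact h
    · rw [h, k_third _ hcl] at h4
      exact absurd h4 (by decide)
  refine ⟨fun h => hlp' (hinj h), d, hd, by rw [← k2]; exact h1, by rw [← k2]; exact h2, ?_⟩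
  intro v hv1 hv2
  by_cases hv : v = l
  · rw [hv]; exact hdl
  · obtain ⟨x, hx⟩ := (hr v).1 hv
    rw [← hx, ← k2]
    exact h3 x (by rintro rfl; exact hv1 hx.symm) (by rintro rfl; exact hv2 hx.symm)

/-- one leaf and two leaves of the minor at it give two leaves -/
lemma twoLeaves_of_leaf {L : Submodule (ZMod 2) (V → K)} (hL : IsCode L) (hz : NoZ L)
    {l p : V} (hlp : l ≠ p) {c : V → K} (hc : c ∈ L) (hcl : (c l).1 = 1) (hcp : c p = z)
    (hc0 : ∀ v, v ≠ l → v ≠ p → c v = 0) {ι : W → V} (hr : ∀ v, v ≠ l ↔ ∃ w, ι w = v)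
    (hinj : Function.Injective ι)
    (h : (∀ v, v = l ∨ v = p) ∨ TwoLeaves (Minor L ι (fun _ => c l + z))) : TwoLeaves L := by
  rcases h with h | h
  · obtain ⟨r, hrL, hr1, hr0⟩ := exists_row hL hz p
    have h4 := hL.iso r hrL c hc
    rw [form_two hlp hc0, hcp, kf_z_right, hr1] at h4
    have hrl : r l = z := by
      rcases k_z _ (hr0 l hlp) with h5 | h5
      · rw [h5, kf_zero_left] at h4
        exact absurd h4 (by decide)
      · exact h5
    refine ⟨l, p, p, l, hlp, ⟨hlp, c, hc, hcl, hcp, hc0⟩, ⟨Ne.symm hlp, r, hrL, hr1, hrl, ?_⟩⟩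
    intro v h1 h2
    rcases h v with h3 | h3
    · exact absurd h3 h2
    · exact absurd h3 h1
  · obtain ⟨l1, l2, p1, p2, hne, h1, h2⟩ := h
    by_cases h3 : ι l1 = p
    · have h4 : ι l2 ≠ p := fun h5 => hne (hinj (h3.trans h5.symm))
      refine ⟨l, ι l2, p, ι p2, ?_, ⟨hlp, c, hc, hcl, hcp, hc0⟩,
        leaf_of_minor hL hlp hc hcl hcp hc0 hr hinj h2 h4⟩
      exact fun h5 => (hr (ι l2)).2 ⟨l2, rfl⟩ h5.symm
    · refine ⟨l, ι l1, p, ι p1, ?_, ⟨hlp, c, hc, hcl, hcp, hc0⟩,
        leaf_of_minor hL hlp hc hcl hcp hc0 hr hinj h1 h3⟩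
      exact fun h5 => (hr (ι l1)).2 ⟨l1, rfl⟩ h5.symm

end

section root
variable {V : Type} [Fintype V]

/-- the bad alternative: the root has the three neighbours `l, p, a` -/
def Bad (L : Submodule (ZMod 2) (V → K)) (e l p : V) : Prop :=
  ∃ a : V, a ≠ l ∧ a ≠ p ∧ a ≠ e ∧ ∃ r ∈ L, (r e).1 = 1 ∧ r l = z ∧ r p = z ∧ r a = z ∧
    ∀ v, v ≠ e → v ≠ l → v ≠ p → v ≠ a → r v = 0

lemma step {W : Type} [Fintype W] {L : Submodule (ZMod 2) (V → K)} (hL : IsCode L)
    {e l p : V} {c : V → K} (hc : RLeaf L e l p c) {ι : W → V}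
    (hinj : Function.Injective ι)
    (hr : ∀ v, v ≠ l ↔ ∃ w, ι w = v) {e' : W} (he' : ι e' = e)
    (h : RootLeaf (Minor L ι (fun _ => c l + z)) e') :
    RootLeaf L e ∨ (c e = z ∧ Bad L e l p) := by
  obtain ⟨hlp, hle, hpe, hcL, hcl, hcp, hce, hc0⟩ := hc
  have hs := k_one _ hcl
  obtain ⟨a', ha', r', hr', h1, h2, h3⟩ := h
  obtain ⟨r, hrL, k1, k2⟩ := (mem_minor_one hr).1 hr'
  have hre : (r e).1 = 1 := by rw [← he', ← k2]; exact h1
  have hra : r (ι a') = z := by rw [← k2]; exact h2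
  have hae : ι a' ≠ e := fun h => ha' (hinj (h.trans he'.symm))
  have hal : ι a' ≠ l := (hr _).2 ⟨a', rfl⟩
  have hr0 : ∀ v, v ≠ l → v ≠ e → v ≠ ι a' → r v = 0 := by
    intro v hv1 hv2 hv3
    obtain ⟨x, hx⟩ := (hr v).1 hv1
    rw [← hx, ← k2]
    exact h3 x (by rintro rfl; exact hv2 (hx.symm.trans he')) (by rintro rfl; exact hv3 hx.symm)
  have hrp : (r p).1 = 0 := by
    by_cases hp : p = ι a'
    · rw [hp, hra]; rfl
    · rw [hr0 p (Ne.symm hlp) hpe hp]; rfl
  have h4 := hL.iso r hrL c hcL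
  rw [form_three hlp hle hpe hc0, hcp, kf_z_right, hrp, add_zero] at h4
  rcases k_z _ hce with h5 | h5
  · -- `e` is not joined to `l`
    left
    rw [h5, kf_zero_right, add_zero] at h4
    have hrl : r l = 0 := by
      rcases (kf_eq_zero_iff _ _ hs.2.2.1).1 k1 with h | h
      · exact h
      · rw [h, k_third _ hcl] at h4
        exact absurd h4 (by decide)
    refine ⟨ι a', hae, r, hrL, hre, hra, ?_⟩
    intro v hv1 hv2
    by_cases hv : v = l
    · rw [hv]; exact hrl
    · exact hr0 v hv hv1 hv2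
  · rw [h5, kf_z_right, hre] at h4
    have hrl : r l = c l + z := by
      rcases (kf_eq_zero_iff _ _ hs.2.2.1).1 k1 with h | h
      · rw [h, kf_zero_left] at h4
        exact absurd h4 (by decide)
      · exact h
    have hsum : r + c ∈ L := L.add_mem hrL hcL
    have e1 : ((r + c) e).1 = 1 := by
      rw [Pi.add_apply, Prod.fst_add, hre, hce, add_zero]
    have e2 : (r + c) l = z := by
      rw [Pi.add_apply, hrl]
      generalize c l = b
      revert b; decide
    by_cases hap : ι a' = p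
    · left
      refine ⟨l, hle, r + c, hsum, e1, e2, ?_⟩
      intro v hv1 hv2
      by_cases hv : v = p
      · rw [hv, Pi.add_apply, hcp, ← hap, hra]; decide
      · rw [Pi.add_apply, hc0 v hv2 hv hv1, hr0 v hv2 hv1 (by rw [hap]; exact hv), add_zero]
    · right
      refine ⟨h5, ι a', hal, hap, hae, r + c, hsum, e1, e2, ?_, ?_, ?_⟩
      · rw [Pi.add_apply, hcp, hr0 p (Ne.symm hlp) hpe (Ne.symm hap), zero_add]
      · rw [Pi.add_apply, hra, hc0 _ hal hap hae, add_zero]
      · intro v hv1 hv2 hv3 hv4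
        rw [Pi.add_apply, hr0 v hv2 hv1 hv4, hc0 v hv2 hv3 hv1, add_zero]

lemma z_ne_zero : (z : K) ≠ 0 := by decide

/-- splitting of a word with exactly two letters -/
lemma split_two {L : Submodule (ZMod 2) (V → K)} (hz : NoZ L) {u : V → K} {l1 l2 g : V}
    (h0 : ∀ v, v ≠ l1 → v ≠ l2 → u v = 0)
    (hu1 : u l1 ≠ 0) (hu2 : u l2 ≠ 0) (hS : Splits L u g) :
    g ≠ l1 ∧ g ≠ l2 ∧ ∃ d ∈ L, d l1 = u l1 ∧ d g = z ∧ ∀ v, v ≠ l1 → v ≠ g → d v = 0 := by
  obtain ⟨c1, hc1, c2, hc2, hsum, hg1, hg2, hdis⟩ := hS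
  have hval : ∀ v, c1 v + c2 v = u v := fun v => congrFun hsum v
  have hug : u g = 0 := by rw [← hval, hg1, hg2]; decide
  have hgl1 : g ≠ l1 := by rintro rfl; exact hu1 hug
  have hgl2 : g ≠ l2 := by rintro rfl; exact hu2 hug
  have hout : ∀ v, v ≠ l1 → v ≠ l2 → v ≠ g → c1 v = 0 ∧ c2 v = 0 := by
    intro v h1 h2 h3
    have h4 := hval v
    rw [h0 v h1 h2] at h4
    rcases hdis v h3 with h | h
    · rw [h, zero_add] at h4; exact ⟨h, h4⟩
    · rw [h, add_zero] at h4; exact ⟨h4, h⟩
  -- neither half is zero at both of `l1`, `l2`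
  have hno : ∀ d ∈ L, d g = z → (∀ v, v ≠ l1 → v ≠ l2 → v ≠ g → d v = 0) → d l1 = 0 → d l2 = 0 →
      False := by
    intro d hd hdg hd0 h1 h2
    have : d = 0 := by
      apply hz d hd
      intro v
      by_cases hv1 : v = l1
      · rw [hv1, h1]; rfl
      by_cases hv2 : v = l2
      · rw [hv2, h2]; rfl
      by_cases hv3 : v = g
      · rw [hv3, hdg]; rfl
      · rw [hd0 v hv1 hv2 hv3]; rfl
    rw [this] at hdg
    exact z_ne_zero hdg.symm
  refine ⟨hgl1, hgl2, ?_⟩
  rcases hdis l1 (Ne.symm hgl1) with h1 | h1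
  · -- `c2` has the letter at `l1`
    have h2 : c2 l2 = 0 := by
      rcases hdis l2 (Ne.symm hgl2) with h | h
      · exact (hno c1 hc1 hg1 (fun v a b c => (hout v a b c).1) h1 h).elim
      · exact h
    refine ⟨c2, hc2, ?_, hg2, ?_⟩
    · have := hval l1
      rw [h1, zero_add] at this
      exact this
    · intro v hv1 hv2
      by_cases hv : v = l2
      · rw [hv]; exact h2
      · exact (hout v hv1 hv hv2).2
  · have h2 : c1 l2 = 0 := by
      rcases hdis l2 (Ne.symm hgl2) with h | h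
      · exact h
      · exact (hno c2 hc2 hg2 (fun v a b c => (hout v a b c).2) h1 h).elim
    refine ⟨c1, hc1, ?_, hg1, ?_⟩
    · have := hval l1
      rw [h1, add_zero] at this
      exact this
    · intro v hv1 hv2
      by_cases hv : v = l2
      · rw [hv]; exact h2
      · exact (hout v hv1 hv hv2).1

/-- two different rooted leaves cannot both be bad -/
lemma two_bad {L : Submodule (ZMod 2) (V → K)} (hL : IsCode L) (hz : NoZ L) {e : V}
    (hC : CritAt L e) {l1 p1 l2 p2 : V} {c1 c2 : V → K}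
    (h1 : RLeaf L e l1 p1 c1) (h2 : RLeaf L e l2 p2 c2) (hne : l1 ≠ l2)
    (hb1 : c1 e = z ∧ Bad L e l1 p1) (hb2 : c2 e = z ∧ Bad L e l2 p2) : False := by
  obtain ⟨hlp1, hle1, hpe1, hcL1, hcl1, hcp1, hce1, hc01⟩ := h1
  obtain ⟨hlp2, hle2, hpe2, hcL2, hcl2, hcp2, hce2, hc02⟩ := h2
  obtain ⟨he1, a1, ha1l, ha1p, ha1e, r1, hr1, hr1e, hr1l, hr1p, hr1a, hr10⟩ := hb1
  obtain ⟨he2, a2, ha2l, ha2p, ha2e, r2, hr2, hr2e, hr2l, hr2p, hr2a, hr20⟩ := hb2
  have hfst : ∀ {r : V → K} {l p a : V}, (r e).1 = 1 → r l = z → r p = z → r a = z →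
      (∀ v, v ≠ e → v ≠ l → v ≠ p → v ≠ a → r v = 0) → ∀ v, v ≠ e → (r v).1 = 0 := by
    intro r l p a _ b1 b2 b3 b4 v hv
    by_cases g1 : v = l
    · rw [g1, b1]; rfl
    by_cases g2 : v = p
    · rw [g2, b2]; rfl
    by_cases g3 : v = a
    · rw [g3, b3]; rfl
    · rw [b4 v hv g1 g2 g3]; rfl
  have hrr : r1 = r2 := by
    apply eq_of_fst hz hr1 hr2
    intro v
    by_cases hv : v = e
    · rw [hv, hr1e, hr2e]
    · rw [hfst hr1e hr1l hr1p hr1a hr10 v hv, hfst hr2e hr2l hr2p hr2a hr20 v hv]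
  -- membership in the three-element sets
  have hm1 : ∀ v, v ≠ e → r1 v = z → v = l1 ∨ v = p1 ∨ v = a1 := by
    intro v hv hvz
    by_contra hcon
    push_neg at hcon
    rw [hr10 v hv hcon.1 hcon.2.1 hcon.2.2] at hvz
    exact z_ne_zero hvz.symm
  have hm2 : ∀ v, v ≠ e → r1 v = z → v = l2 ∨ v = p2 ∨ v = a2 := by
    intro v hv hvz
    by_contra hcon
    push_neg at hcon
    rw [hrr, hr20 v hv hcon.1 hcon.2.1 hcon.2.2] at hvz
    exact z_ne_zero hvz.symm
  have hf := hL.iso c1 hcL1 c2 hcL2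
  have hf2 := hL.iso c2 hcL2 c1 hcL1
  rw [form_three hlp2 hle2 hpe2 hc02, hcp2, he1, he2, kf_z_right] at hf
  rw [form_three hlp1 hle1 hpe1 hc01, hcp1, he1, he2, kf_z_right] at hf2
  have hzz : kf z z = 0 := by decide
  rw [hzz, add_zero] at hf hf2
  have kzl : ∀ a : K, a.1 = 1 → kf z a = 1 := by intro a ha; rw [kf_z_left, ha]
  -- the word `c1 + c2`
  have hu : c1 + c2 ∈ L := L.add_mem hcL1 hcL2
  have hue : (c1 + c2) e = 0 := by rw [Pi.add_apply, he1, he2]; decide
  have hl2m := hm1 l2 hle2 (by rw [hrr]; exact hr2l)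
  have hl1m := hm2 l1 hle1 hr1l
  by_cases hA : l2 = p1
  · -- then `p2 = l1`
    have hB : p2 = l1 := by
      by_contra hcon
      have hp2l2 : p2 ≠ p1 := by rw [← hA]; exact Ne.symm hlp2
      have k1 : c1 l2 = z := by rw [hA]; exact hcp1
      have k2 : c1 p2 = 0 := hc01 p2 hcon hp2l2 hpe2
      rw [k1, kzl _ hcl2, k2] at hf
      exact absurd hf (by decide)
    have v1 : (c1 + c2) l1 = c1 l1 + z := by rw [Pi.add_apply, ← hB, hcp2]
    have v2 : (c1 + c2) l2 = z + c2 l2 := by
      rw [Pi.add_apply, hA, hcp1]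
    have v0 : ∀ v, v ≠ l1 → v ≠ l2 → (c1 + c2) v = 0 := by
      intro v w1 w2
      by_cases hv : v = e
      · rw [hv]; exact hue
      · rw [Pi.add_apply, hc01 v w1 (by rw [← hA]; exact w2) hv,
          hc02 v w2 (by rw [hB]; exact w1) hv, add_zero]
    have n1 : (c1 + c2) l1 ≠ 0 := by rw [v1]; exact (k_one _ hcl1).2.2.1
    have n2 : (c1 + c2) l2 ≠ 0 := by rw [v2, add_comm]; exact (k_one _ hcl2).2.2.1
    have m1 : (c1 + c2) l1 ≠ z := by rw [v1]; exact (k_one _ hcl1).2.2.2
    have m2 : (c1 + c2) l2 ≠ z := by rw [v2, add_comm]; exact (k_one _ hcl2).2.2.2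
    obtain ⟨g, hg⟩ := hC _ hu (by intro h; rw [h] at n1; exact n1 rfl) (by
      intro v
      by_cases w1 : v = l1
      · rw [w1]; exact m1
      by_cases w2 : v = l2
      · rw [w2]; exact m2
      rw [v0 v w1 w2]; decide) hue
    obtain ⟨hg1, hg2, d, hd, hd1, hdg, hd0⟩ := split_two hz v0 n1 n2 hg
    have h5 := hL.iso d hd c2 hcL2
    rw [form_three hlp2 hle2 hpe2 hc02, hcp2, he2, kf_z_right, kf_z_right,
      hd0 l2 (Ne.symm hne) (Ne.symm hg2), kf_zero_left, zero_add, hB, hd1, v1] at h5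
    have h6 : (d e).1 = 0 := by
      by_cases hge : e = g
      · rw [hge, hdg]; rfl
      · rw [hd0 e (Ne.symm hle1) hge]; rfl
    rw [h6, add_zero, k_fst_add_z, hcl1] at h5
    exact absurd h5 (by decide)
  · have hA' : l2 = a1 := by
      rcases hl2m with h | h | h
      · exact absurd h.symm hne
      · exact absurd h hA
      · exact h
    have hB : l1 ≠ p2 := by
      intro hcon
      have k1 : c1 l2 = 0 := hc01 l2 (Ne.symm hne) hA hle2
      rw [k1, kf_zero_left, zero_add, ← hcon, hcl1] at hf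
      exact absurd hf (by decide)
    have hB' : l1 = a2 := by
      rcases hl1m with h | h | h
      · exact absurd h hne
      · exact absurd h hB
      · exact h
    have hpp : p1 = p2 := by
      rcases hm2 p1 hpe1 hr1p with h | h | h
      · exact absurd h.symm hA
      · exact h
      · exact absurd (h.trans hB'.symm) (Ne.symm hlp1)
    have v1 : (c1 + c2) l1 = c1 l1 := by
      rw [Pi.add_apply, hc02 l1 hne hB hle1, add_zero]
    have v2 : (c1 + c2) l2 = c2 l2 := by
      rw [Pi.add_apply, hc01 l2 (Ne.symm hne) hA hle2, zero_add]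
    have v0 : ∀ v, v ≠ l1 → v ≠ l2 → (c1 + c2) v = 0 := by
      intro v w1 w2
      by_cases hv : v = e
      · rw [hv]; exact hue
      by_cases hv2 : v = p1
      · rw [hv2, Pi.add_apply, hcp1, hpp, hcp2]; decide
      · rw [Pi.add_apply, hc01 v w1 hv2 hv, hc02 v w2 (by rw [← hpp]; exact hv2) hv, add_zero]
    have n1 : (c1 + c2) l1 ≠ 0 := by rw [v1]; exact (k_one _ hcl1).1
    have n2 : (c1 + c2) l2 ≠ 0 := by rw [v2]; exact (k_one _ hcl2).1
    have m1 : (c1 + c2) l1 ≠ z := by rw [v1]; exact (k_one _ hcl1).2.1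
    have m2 : (c1 + c2) l2 ≠ z := by rw [v2]; exact (k_one _ hcl2).2.1
    obtain ⟨g, hg⟩ := hC _ hu (by intro h; rw [h] at n1; exact n1 rfl) (by
      intro v
      by_cases w1 : v = l1
      · rw [w1]; exact m1
      by_cases w2 : v = l2
      · rw [w2]; exact m2
      rw [v0 v w1 w2]; decide) hue
    obtain ⟨hg1, hg2, d, hd, hd1, hdg, hd0⟩ := split_two hz v0 n1 n2 hg
    -- `d + c1` is a `{0, z}`-word
    have h5 : d + c1 = 0 := by
      apply hz _ (L.add_mem hd hcL1)
      intro v
      by_cases w1 : v = l1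
      · rw [w1, Pi.add_apply, hd1, v1, k_add_self]; rfl
      · have t1 : (d v).1 = 0 := by
          by_cases w : v = g
          · rw [w, hdg]; rfl
          · rw [hd0 v w1 w]; rfl
        have t2 : (c1 v).1 = 0 := by
          by_cases w : v = p1
          · rw [w, hcp1]; rfl
          by_cases w' : v = e
          · rw [w', he1]; rfl
          · rw [hc01 v w1 w w']; rfl
        rw [Pi.add_apply, Prod.fst_add, t1, t2, add_zero]
    by_cases hge : g = e
    · have h6 := congrFun h5 p1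
      rw [Pi.add_apply, hcp1, hd0 p1 (Ne.symm hlp1) (by rw [hge]; exact hpe1), zero_add] at h6
      exact z_ne_zero h6
    · have h6 := congrFun h5 e
      rw [Pi.add_apply, he1, hd0 e (Ne.symm hle1) (Ne.symm hge), zero_add] at h6
      exact z_ne_zero h6

/-- the case of one vertex besides the root -/
lemma base {L : Submodule (ZMod 2) (V → K)} (hL : IsCode L) (hz : NoZ L) {e w : V}
    (hw : w ≠ e) (hall : ∀ v, v = e ∨ v = w) (hC : CritAt L e) : RootLeaf L e := by
  obtain ⟨r, hr, hre, hr0⟩ := exists_row hL hz e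
  rcases k_z _ (hr0 w hw) with h | h
  · exfalso
    obtain ⟨s, hs, hsw, hs0⟩ := exists_row hL hz w
    have h1 := hL.iso s hs r hr
    rw [form_two hw (fun v a b => absurd (hall v) (by
      rintro (h | h)
      · exact b h
      · exact a h)), h, kf_zero_right, zero_add] at h1
    have hse : s e = 0 := by
      rcases k_z _ (hs0 e (Ne.symm hw)) with h2 | h2
      · exact h2
      · rw [h2, kf_z_left, hre] at h1
        exact absurd h1 (by decide)
    have hsne : s w ≠ 0 ∧ s w ≠ z := ⟨(k_one _ hsw).1, (k_one _ hsw).2.1⟩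
    obtain ⟨g, c1, hc1, c2, hc2, hsum, hg1, hg2, hdis⟩ := hC s hs
      (by intro h; rw [h] at hsne; exact hsne.1 rfl) (by
        intro v
        rcases hall v with h | h
        · rw [h, hse]; decide
        · rw [h]; exact hsne.2) hse
    have hval : ∀ v, c1 v + c2 v = s v := fun v => congrFun hsum v
    have hgw : g ≠ w := by
      rintro rfl
      have := hval g
      rw [hg1, hg2] at this
      exact hsne.1 (this.symm.trans (by decide))
    have hge : g = e := (hall g).resolve_right hgw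
    have hno : ∀ d ∈ L, d g = z → d w = 0 → False := by
      intro d hd hdg hdw
      have : d = 0 := by
        apply hz d hd
        intro v
        rcases hall v with h | h
        · rw [h, ← hge, hdg]; rfl
        · rw [h, hdw]; rfl
      rw [this] at hdg
      exact z_ne_zero hdg.symm
    rcases hdis w (Ne.symm hgw) with h | h
    · exact hno c1 hc1 hg1 h
    · exact hno c2 hc2 hg2 h
  · refine ⟨w, hw, r, hr, hre, h, ?_⟩
    intro v h1 h2
    rcases hall v with h | h
    · exact absurd h h1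
    · exact absurd h h2

end root

/-- LEMMA B. `CC` is a class of codes; in the range of sizes considered its members with at least two
places have two leaves, and deleting a leaf (third letter) keeps the class. If the minor of `L` at the
root `e` (letter `z`) is in the class and the words vanishing at `e` split, then `e` has exactly one
neighbour. -/
theorem lemmaB
    (CC : ∀ (W : Type) [Fintype W], Submodule (ZMod 2) (W → K) → Prop)
    (del : ∀ {W W' : Type} [Fintype W] [Fintype W'] (N : Submodule (ZMod 2) (W → K)) (l p : W)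
      (c : W → K), CC W N → l ≠ p → c ∈ N → (c l).1 = 1 → c p = z →
      (∀ v, v ≠ l → v ≠ p → c v = 0) → ∀ ι : W' → W, Function.Injective ι →
      (∀ v, v ≠ l ↔ ∃ w, ι w = v) → CC W' (Minor N ι (fun _ => c l + z)))
    (n : ℕ)
    (two : ∀ {W : Type} [Fintype W] (N : Submodule (ZMod 2) (W → K)), CC W N →
      2 ≤ Fintype.card W → Fintype.card W ≤ n → TwoLeaves N) :
    ∀ {V W : Type} [Fintype V] [Fintype W] (L : Submodule (ZMod 2) (V → K)) (e : V) (ι : W → V),
      Function.Injective ι → (∀ v, v ≠ e ↔ ∃ w, ι w = v) → 1 ≤ Fintype.card W →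
      Fintype.card W ≤ n → IsCode L → NoZ L → CritAt L e →
      CC W (Minor L ι (fun _ => z)) → RootLeaf L e := by
  classical
  intro V W _ _ L e ι hinj hr h1 hn hL hz hC hCC
  induction hk : Fintype.card W using Nat.strong_induction_on generalizing V W with
  | _ k ih =>
  subst hk
  by_cases h2 : 2 ≤ Fintype.card W
  · obtain ⟨l1, l2, p1, p2, hne, hl1, hl2⟩ := two _ hCC h2 hn
    -- lift the two leaves to rooted leaves
    have lift : ∀ l p : W, LeafAt (Minor L ι (fun _ => z)) l p →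
        ∃ c, RLeaf L e (ι l) (ι p) c ∧
          (fun w => c (ι w)) ∈ Minor L ι (fun _ => z) ∧
          (∀ v, v ≠ l → v ≠ p → c (ι v) = 0) := by
      intro l p h
      obtain ⟨hlp, t, ht, t1, t2, t3⟩ := h
      obtain ⟨c, hc, k1, k2⟩ := (mem_minor_one hr).1 ht
      refine ⟨c, ⟨fun h => hlp (hinj h), (hr _).2 ⟨l, rfl⟩, (hr _).2 ⟨p, rfl⟩, hc,
        by rw [← k2]; exact t1, by rw [← k2]; exact t2, by rw [kf_z_right] at k1; exact k1, ?_⟩,
        (mem_minor_one hr).2 ⟨c, hc, k1, fun _ => rfl⟩,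
        fun v a b => by rw [← k2]; exact t3 v a b⟩
      intro v hv1 hv2 hv3
      obtain ⟨x, hx⟩ := (hr v).1 hv3
      rw [← hx, ← k2]
      exact t3 x (by rintro rfl; exact hv1 hx.symm) (by rintro rfl; exact hv2 hx.symm)
    have one : ∀ l p : W, LeafAt (Minor L ι (fun _ => z)) l p →
        RootLeaf L e ∨ ∃ c, RLeaf L e (ι l) (ι p) c ∧ (c e = z ∧ Bad L e (ι l) (ι p)) := by
      intro l p h
      obtain ⟨c, hc, hcm, hc0⟩ := lift l p h
      -- the minors
      let V' := {v : V // v ≠ ι l}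
      let W' := {w : W // w ≠ l}
      let j : V' → V := Subtype.val
      let i' : W' → V' := fun w => ⟨ι w.1, fun h => w.2 (hinj h)⟩
      have hj : Function.Injective j := Subtype.val_injective
      have hjr : ∀ v, v ≠ ι l ↔ ∃ w, j w = v :=
        fun v => ⟨fun h => ⟨⟨v, h⟩, rfl⟩, fun ⟨w, hw⟩ => by rw [← hw]; exact w.2⟩
      have hle : e ≠ ι l := Ne.symm hc.2.1
      let e' : V' := ⟨e, hle⟩
      have hi' : Function.Injective i' := by
        intro a b hab
        have : ι a.1 = ι b.1 := congrArg Subtype.val hab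
        exact Subtype.ext (hinj this)
      have hir : ∀ v : V', v ≠ e' ↔ ∃ w, i' w = v := by
        intro v
        constructor
        · intro hv
          have : v.1 ≠ e := fun h => hv (Subtype.ext h)
          obtain ⟨w, hw⟩ := (hr v.1).1 this
          refine ⟨⟨w, ?_⟩, Subtype.ext hw⟩
          rintro rfl
          exact v.2 hw.symm
        · rintro ⟨w, rfl⟩ h
          have : ι w.1 = e := congrArg Subtype.val h
          exact (hr _).2 ⟨w.1, rfl⟩ this
      have hcardW' : Fintype.card W' + 1 = Fintype.card W := by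
        have := Fintype.card_subtype_compl (fun w : W => w = l)
        rw [Fintype.card_subtype_eq] at this
        have h3 : Fintype.card W' = Fintype.card W - 1 := by
          convert this using 1
        omega
      have hval : c (ι l) + z = (fun w => c (ι w)) l + z := rfl
      have hCC' : CC W' (Minor (Minor L ι (fun _ => z)) (Subtype.val : W' → W)
          (fun _ => (fun w => c (ι w)) l + z)) :=
        del (Minor L ι (fun _ => z)) l p (fun w => c (ι w)) hCC h.1 hcm hc.2.2.2.2.1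
          hc.2.2.2.2.2.1 hc0 Subtype.val Subtype.val_injective
          (fun v => ⟨fun h => ⟨⟨v, h⟩, rfl⟩, fun ⟨w, hw⟩ => by rw [← hw]; exact w.2⟩)
      have heq : Minor (Minor L j (fun _ => c (ι l) + z)) i' (fun _ => z) =
          Minor (Minor L ι (fun _ => z)) (Subtype.val : W' → W) (fun _ => c (ι l) + z) := by
        have hvr : ∀ v : W, v ≠ l ↔ ∃ w : W', w.1 = v :=
          fun v => ⟨fun h => ⟨⟨v, h⟩, rfl⟩, fun ⟨w, hw⟩ => by rw [← hw]; exact w.2⟩
        ext a
        rw [mem_minor_one hir, mem_minor_one hvr]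
        constructor
        · rintro ⟨u, hu, k1, k2⟩
          obtain ⟨x, hx, m1, m2⟩ := (mem_minor_one hjr).1 hu
          refine ⟨fun w => x (ι w), (mem_minor_one hr).2 ⟨x, hx, ?_, fun _ => rfl⟩, m1, ?_⟩
          · rw [m2] at k1; exact k1
          · intro w
            rw [k2, m2]
        · rintro ⟨u, hu, k1, k2⟩
          obtain ⟨x, hx, m1, m2⟩ := (mem_minor_one hr).1 hu
          refine ⟨fun w => x (j w), (mem_minor_one hjr).2 ⟨x, hx, ?_, fun _ => rfl⟩, m1, ?_⟩
          · rw [m2] at k1; exact k1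
          · intro w
            rw [k2, m2]
      have hs := k_one _ hc.2.2.2.2.1
      have hroot := ih (Fintype.card W') (by omega) (V := V') (W := W')
        (Minor L j (fun _ => c (ι l) + z)) e' i' hi' hir (by omega) (by omega)
        (isCode_one hL hj hs.2.2.1) (noZ_rleaf hL hz hc hjr) (critAt_rleaf hL hC hc hj hjr rfl)
        (by rw [heq]; exact hCC') rfl
      rcases step hL hc hj hjr rfl hroot with h3 | h3
      · exact Or.inl h3
      · exact Or.inr ⟨c, hc, h3⟩
    rcases one l1 p1 hl1 with h3 | ⟨c1, hc1, hb1⟩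
    · exact h3
    rcases one l2 p2 hl2 with h3 | ⟨c2, hc2, hb2⟩
    · exact h3
    exact (two_bad hL hz hC hc1 hc2 (fun h => hne (hinj h)) hb1 hb2).elim
  · have hc1 : Fintype.card W = 1 := by omega
    obtain ⟨w, hw⟩ := Fintype.card_eq_one_iff.1 hc1
    refine base hL hz (w := ι w) ((hr _).2 ⟨w, rfl⟩) ?_ hC
    intro v
    by_cases hv : v = e
    · exact Or.inl hv
    · obtain ⟨x, hx⟩ := (hr v).1 hv
      right
      rw [← hx, hw x]

end Pool.Agent.H80.TB
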